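import Pool.Agent.H31.MP.Basic

/-!
# MP_76b9e7_nt, board mtp_modules: the upper bound for the integers (row IU)
-/

set_option autoImplicit false

open Finset Real ArithmeticFunction
open scoped Nat

namespace Pool.Agent.H5.MTP

open Pool.Agent.H31.MP
open Pool.Agent.H30.BV (NX wx WX Sf As Er Sad qj PZ lv nl)

theorem Pz_sub {y₀ : ℕ} (h : 2 ≤ y₀) (z : ℝ) : Pz y₀ z ⊆ PZ z 2 := by
  intro p hp
  unfold Pz at hp
  unfold PZ
  rw [Finset.mem_filter, Finset.mem_Icc] at hp ⊢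
  obtain ⟨⟨h1, h2⟩, h3, h4⟩ := hp
  exact ⟨⟨by omega, h2⟩, h3, by omega⟩

theorem Pz_mem {y₀ p : ℕ} {z : ℝ} (hp : p ∈ Pz y₀ z) : p.Prime ∧ y₀ < p := by
  unfold Pz at hp
  rw [Finset.mem_filter] at hp
  exact hp.2

/-- the residue class of `- h` modulo `p` -/
theorem res_eq {p a h : ℕ} (hp : 0 < p) (ha : a < p) (hd : p ∣ a + h) :
    a = (p - h % p) % p := by
  have hr : h % p < p := Nat.mod_lt _ hp
  have h1 : p ∣ a + h % p := by
    have h2 : a + h = a + h % p + p * (h / p) := by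
      have h3 := Nat.mod_add_div h p
      omega
    rw [h2] at hd
    exact (Nat.dvd_add_left (dvd_mul_right p _)).1 hd
  obtain ⟨k, hk⟩ := h1
  have hk2 : k < 2 := by
    by_contra hcon
    have h4 : 2 ≤ k := by omega
    have h5 : p * 2 ≤ p * k := Nat.mul_le_mul_left p h4
    omega
  rcases Nat.lt_or_ge k 1 with h6 | h6
  · have h7 : k = 0 := by omega
    rw [h7] at hk
    have h8 : a = 0 := by omega
    have h9 : h % p = 0 := by omega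
    rw [h8, h9, Nat.sub_zero, Nat.mod_self]
  · have h7 : k = 1 := by omega
    rw [h7] at hk
    have h8 : p - h % p = a := by omega
    rw [h8, Nat.mod_eq_of_lt ha]

theorem res_dvd {p h : ℕ} (hp : 0 < p) : p ∣ (p - h % p) % p + h := by
  have hr : h % p < p := Nat.mod_lt _ hp
  rw [Nat.dvd_iff_mod_eq_zero, Nat.add_mod, Nat.mod_mod, ← Nat.add_mod]
  have h1 : p - h % p + h = p * (h / p + 1) := by
    have h3 := Nat.mod_add_div h p
    rw [mul_add, mul_one]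
    omega
  rw [h1, Nat.mul_mod_right]

theorem nu_le {K : ℕ} (h : Fin K → ℕ) {p : ℕ} (hp : 0 < p) : nu h p ≤ K := by
  classical
  have h1 : nu h p ≤ ((Finset.univ : Finset (Fin K)).image fun i => (p - h i % p) % p).card := by
    unfold nu
    refine Finset.card_le_card fun a ha => ?_
    rw [Finset.mem_filter, Finset.mem_range] at ha
    obtain ⟨ha1, i, hi⟩ := ha
    exact Finset.mem_image.2 ⟨i, Finset.mem_univ i, (res_eq hp ha1 hi).symm⟩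
  refine h1.trans (Finset.card_image_le.trans ?_)
  rw [Finset.card_univ, Fintype.card_fin]

theorem nu_pos {K : ℕ} (hK : 1 ≤ K) (h : Fin K → ℕ) {p : ℕ} (hp : 0 < p) : 1 ≤ nu h p := by
  classical
  unfold nu
  refine Finset.card_pos.2 ⟨(p - h ⟨0, hK⟩ % p) % p, ?_⟩
  rw [Finset.mem_filter, Finset.mem_range]
  exact ⟨Nat.mod_lt _ hp, ⟨0, hK⟩, res_dvd hp⟩

theorem QF_nonneg (hDG : T_DG) (K : ℕ) (z Y : ℝ) (l : (Fin K → ℕ) → ℝ) : 0 ≤ QF z Y l := by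
  rw [hDG K z Y l]
  exact Finset.sum_nonneg fun r _ => mul_nonneg
    (Finset.prod_nonneg fun i _ => Nat.cast_nonneg _) (sq_nonneg _)

/-- large `X` -/
theorem large (δ : ℝ) (hδ : 0 < δ) : ∃ X₁ : ℝ, ∀ X : ℝ, X₁ ≤ X →
    0 < X ∧ 1 ≤ Real.log X ∧ 3 ≤ X ^ δ ∧ 3 * Real.log (X ^ δ) + 1 ≤ Real.log X ^ 2 := by
  refine ⟨max (Real.exp (3 * δ + 1)) (3 ^ (1 / δ)), fun X hX => ?_⟩
  have h1 : Real.exp (3 * δ + 1) ≤ X := (le_max_left _ _).trans hX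
  have h2 : (3 : ℝ) ^ (1 / δ) ≤ X := (le_max_right _ _).trans hX
  have hX0 : 0 < X := (Real.exp_pos _).trans_le h1
  have h3 : 3 * δ + 1 ≤ Real.log X := (Real.le_log_iff_exp_le hX0).2 h1
  have h4 : 1 ≤ Real.log X := by linarith
  refine ⟨hX0, h4, ?_, ?_⟩
  · have h5 : ((3 : ℝ) ^ (1 / δ)) ^ δ ≤ X ^ δ :=
      Real.rpow_le_rpow (by positivity) h2 hδ.le
    rw [← Real.rpow_mul (by norm_num), one_div, inv_mul_cancel₀ hδ.ne', Real.rpow_one] at h5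
    exact h5
  · rw [Real.log_rpow hX0]
    nlinarith

theorem prod_one_sub_nonneg (P : Finset ℕ) (g : ℕ → ℝ) (h : ∀ p ∈ P, g p < 1) :
    0 ≤ ∏ p ∈ P, (1 - g p) :=
  Finset.prod_nonneg fun p hp => (sub_pos.2 (h p hp)).le

theorem div_log_le {X : ℝ} (hX : 0 < X) (hL : 1 ≤ Real.log X) (A : ℕ) :
    X / Real.log X ^ (A + 2) ≤ X / Real.log X ^ A := by
  refine div_le_div_of_nonneg_left hX.le (by positivity) ?_
  exact pow_le_pow_right₀ hL (by omega)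

theorem upper {Z V S E Q η : ℝ} (hZ : 0 ≤ Z) (hV : 0 ≤ V) (hη : 0 < η)
    (hQ : Q ≤ Real.log (1 + η)) (hS : S ≤ Z * V * Real.exp Q + E) : S ≤ (1 + η) * (Z * V) + E := by
  have h1 : Real.exp Q ≤ 1 + η := by
    have h2 := Real.exp_le_exp.2 hQ
    rwa [Real.exp_log (by linarith)] at h2
  have h3 : Z * V * Real.exp Q ≤ Z * V * (1 + η) :=
    mul_le_mul_of_nonneg_left h1 (mul_nonneg hZ hV)
  linarith

theorem K_div_le {K y₀ p : ℕ} (hy : 2 * K + 2 ≤ y₀) (hp : y₀ < p) : (K : ℝ) / p ≤ 1 / 2 := by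
  have h0 : (0 : ℝ) < p := by
    have : 0 < p := by omega
    exact_mod_cast this
  rw [div_le_div_iff₀ h0 (by norm_num)]
  have h1 : K * 2 ≤ 1 * p := by omega
  exact_mod_cast h1

theorem pf_IU (hIE : T_IE) (hBU : Pool.Agent.H30.BV.T_BU) (hQK : T_QK) (hSD : T_SD)
    (hDG : T_DG) : T_IU := by
  intro K η hK hη
  have hη' : 0 < Real.log (1 + η) := Real.log_pos (by linarith)
  obtain ⟨b, hb⟩ := hQK K (Real.log (1 + η)) hη'
  refine ⟨b, ?_⟩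
  intro y₀ A δ C hy hδ hδb hC
  obtain ⟨X₀, hX₀⟩ := hIE K b y₀ A δ C hK hy hδ hδb hC
  obtain ⟨X₁, hX₁⟩ := large δ hδ
  refine ⟨max X₀ X₁, ?_⟩
  intro X hX Y h l hinj hh hY1 hY2 hW
  have hEr := hX₀ X ((le_max_left _ _).trans hX) Y h l hinj hh hY1 hY2 hW
  obtain ⟨hX0, hL1, hz3, hlog⟩ := hX₁ X ((le_max_right _ _).trans hX)
  have hsub : Pz y₀ (X ^ δ) ⊆ PZ (X ^ δ) 2 := Pz_sub (by omega) _
  have hg : ∀ p ∈ Pz y₀ (X ^ δ), 0 ≤ (nu h p : ℝ) / p ∧ (nu h p : ℝ) / p ≤ K / p ∧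
      (nu h p : ℝ) / p ≤ 1 / 2 := by
    intro p hp
    have h1 := Pz_mem hp
    have h2 : (nu h p : ℝ) / p ≤ K / p :=
      div_le_div_of_nonneg_right (Nat.cast_le.2 (nu_le h h1.1.pos)) (Nat.cast_nonneg _)
    exact ⟨by positivity, h2, h2.trans (K_div_le hy h1.2)⟩
  have hg1 : ∀ p ∈ Pz y₀ (X ^ δ), 0 ≤ (nu h p : ℝ) / p ∧ (nu h p : ℝ) / p < 1 := fun p hp =>
    ⟨(hg p hp).1, lt_of_le_of_lt (hg p hp).2.2 (by norm_num)⟩
  obtain ⟨C1, B1, hC1, hSD1⟩ := hSD K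
  have hSD2 := hSD1 (X ^ δ) (Pz y₀ (X ^ δ)) (fun p => (nu h p : ℝ) / p) b hz3 hsub
    (fun p hp => ⟨(hg p hp).1, (hg p hp).2.1⟩)
  have hq := hb (X ^ δ) (Pz y₀ (X ^ δ)) (fun p => (nu h p : ℝ) / p) hz3 hsub hg
  have hZ : 0 ≤ (NX X : ℝ) / primorial y₀ * QF (X ^ δ) Y l :=
    mul_nonneg (by positivity) (QF_nonneg hDG K _ _ _)
  have hS := hBU (Om X y₀) (Pz y₀ (X ^ δ)) (fun n => 1 * Lam (X ^ δ) Y l h n ^ 2) (dvh h)
    (lv (X ^ δ)) (fun j => b + j) (nl (X ^ δ)) (fun p => (nu h p : ℝ) / p)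
    ((NX X : ℝ) / primorial y₀ * QF (X ^ δ) Y l) (fun n _ => by positivity) hZ hg1 hSD2.2.2.1
  have hU := upper hZ (prod_one_sub_nonneg _ _ fun p hp => (hg1 p hp).2) hη hq hS
  have e1 : ∑ n ∈ Omr X y₀ (X ^ δ) h, Lam (X ^ δ) Y l h n ^ 2 =
      Sf (Om X y₀) (fun n => 1 * Lam (X ^ δ) Y l h n ^ 2) (dvh h) (Pz y₀ (X ^ δ)) := by
    unfold Sf Omr
    simp only [one_mul]
  rw [e1]
  refine hU.trans ?_
  have e2 : (1 + η) * ((NX X : ℝ) / primorial y₀ * QF (X ^ δ) Y l *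
      ∏ p ∈ Pz y₀ (X ^ δ), (1 - (nu h p : ℝ) / p)) =
      (1 + η) * (NX X / primorial y₀ * V1 y₀ (X ^ δ) h * QF (X ^ δ) Y l) := by
    unfold V1
    ring
  rw [e2]
  linarith

end Pool.Agent.H5.MTP
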