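import Pool.Agent.H5.MTP.IU

/-!
# MP_76b9e7_nt, board mtp_modules: both bounds for the primes (row PU)
-/

set_option autoImplicit false

open Finset Real ArithmeticFunction
open scoped Nat

namespace Pool.Agent.H5.MTP

open Pool.Agent.H31.MP
open Pool.Agent.H30.BV (NX wx WX Sf As Er Sad qj PZ lv nl)

theorem wx_nn (X : ℝ) (n : ℕ) : 0 ≤ wx X n :=
  mul_nonneg vonMangoldt_nonneg (Pool.Agent.H27.LS.hat_nonneg _)

theorem WX_nn (X : ℝ) : 0 ≤ WX X := Finset.sum_nonneg fun n _ => wx_nn X n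

theorem log_one_add_le {η : ℝ} (hη : 0 < η) : Real.log (1 + η) ≤ η := by
  have h := Real.log_le_sub_one_of_pos (show (0 : ℝ) < 1 + η by linarith)
  linarith

theorem lower {Z V S E E' Q η t : ℝ} (hZ : 0 ≤ Z) (hV : 0 ≤ V) (hη : 0 < η)
    (hQ : Q ≤ Real.log (1 + η)) (hS : Z * V * (1 - Q) - t * E ≤ S) (hE : t * E ≤ E') :
    (1 - η) * (Z * V) - E' ≤ S := by
  have h1 := log_one_add_le hη
  have h3 : Z * V * (1 - η) ≤ Z * V * (1 - Q) :=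
    mul_le_mul_of_nonneg_left (by linarith) (mul_nonneg hZ hV)
  linarith

theorem g_bd {K y₀ p ν : ℕ} (hK : 1 ≤ K) (hy : 2 * K + 2 ≤ y₀) (hp : y₀ < p) (hν : 1 ≤ ν)
    (hνK : ν ≤ K) : 0 ≤ ((ν : ℝ) - 1) / ((p : ℝ) - 1) ∧
      ((ν : ℝ) - 1) / ((p : ℝ) - 1) ≤ K / p := by
  have h1 : (K : ℝ) + 1 ≤ p := by
    have : K + 1 ≤ p := by omega
    exact_mod_cast this
  have h2 : (1 : ℝ) ≤ ν := by exact_mod_cast hν
  have h3 : (ν : ℝ) ≤ K := by exact_mod_cast hνK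
  have h4 : (1 : ℝ) ≤ K := by exact_mod_cast hK
  have h5 : (0 : ℝ) < (p : ℝ) - 1 := by linarith
  have h6 : (0 : ℝ) < p := by linarith
  refine ⟨div_nonneg (by linarith) h5.le, ?_⟩
  rw [div_le_div_iff₀ h5 h6]
  nlinarith

theorem err_le {X nz E Lz : ℝ} (A : ℕ) (hX : 0 < X) (hL : 1 ≤ Real.log X) (h1 : nz ≤ 3 * Lz)
    (h0 : 0 ≤ nz) (h2 : 3 * Lz + 1 ≤ Real.log X ^ 2) (hE : E ≤ X / Real.log X ^ (A + 2)) :
    (nz + 1) * E ≤ X / Real.log X ^ A := by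
  have hp : 0 < Real.log X ^ (A + 2) := by positivity
  have h3 : (nz + 1) * E ≤ (nz + 1) * (X / Real.log X ^ (A + 2)) :=
    mul_le_mul_of_nonneg_left hE (by linarith)
  have h4 : (nz + 1) * (X / Real.log X ^ (A + 2)) ≤
      Real.log X ^ 2 * (X / Real.log X ^ (A + 2)) :=
    mul_le_mul_of_nonneg_right (by linarith) (by positivity)
  have h5 : Real.log X ^ 2 * (X / Real.log X ^ (A + 2)) = X / Real.log X ^ A := by
    have h6 : Real.log X ≠ 0 := by linarith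
    rw [pow_add]
    field_simp
  linarith

theorem pf_PU (hPE : T_PE) (hBL : Pool.Agent.H30.BV.T_BL) (hBU : Pool.Agent.H30.BV.T_BU)
    (hQK : T_QK) (hSD : T_SD) (hDG : T_DG) : T_PU := by
  intro K η hK hη
  have hη' : 0 < Real.log (1 + η) := Real.log_pos (by linarith)
  obtain ⟨b, hb⟩ := hQK K (Real.log (1 + η)) hη'
  refine ⟨b, ?_⟩
  intro y₀ A δ ε C hy hδ hε hδb hC
  obtain ⟨X₀, hX₀⟩ := hPE K b y₀ (A + 2) δ ε C hK hy hδ hε hδb hC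
  obtain ⟨X₁, hX₁⟩ := large δ hδ
  refine ⟨max X₀ X₁, ?_⟩
  intro X hX Y h i₀ l hinj hh hpr hY1 hY2 hW hl
  have hEr := hX₀ X ((le_max_left _ _).trans hX) Y h i₀ l hinj hh hpr hY1 hY2 hW hl
  obtain ⟨hX0, hL1, hz3, hlog⟩ := hX₁ X ((le_max_right _ _).trans hX)
  have hsub : Pz y₀ (X ^ δ) ⊆ PZ (X ^ δ) 2 := Pz_sub (by omega) _
  have hg : ∀ p ∈ Pz y₀ (X ^ δ), 0 ≤ ((nu h p : ℝ) - 1) / ((p : ℝ) - 1) ∧
      ((nu h p : ℝ) - 1) / ((p : ℝ) - 1) ≤ K / p ∧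
      ((nu h p : ℝ) - 1) / ((p : ℝ) - 1) ≤ 1 / 2 := by
    intro p hp
    have h1 := Pz_mem hp
    have h2 := g_bd hK hy h1.2 (nu_pos hK h h1.1.pos) (nu_le h h1.1.pos)
    exact ⟨h2.1, h2.2, h2.2.trans (K_div_le hy h1.2)⟩
  have hg1 : ∀ p ∈ Pz y₀ (X ^ δ), 0 ≤ ((nu h p : ℝ) - 1) / ((p : ℝ) - 1) ∧
      ((nu h p : ℝ) - 1) / ((p : ℝ) - 1) < 1 := fun p hp =>
    ⟨(hg p hp).1, lt_of_le_of_lt (hg p hp).2.2 (by norm_num)⟩
  obtain ⟨C1, B1, hC1, hSD1⟩ := hSD K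
  have hSD2 := hSD1 (X ^ δ) (Pz y₀ (X ^ δ)) (fun p => ((nu h p : ℝ) - 1) / ((p : ℝ) - 1)) b hz3
    hsub (fun p hp => ⟨(hg p hp).1, (hg p hp).2.1⟩)
  have hq := hb (X ^ δ) (Pz y₀ (X ^ δ)) (fun p => ((nu h p : ℝ) - 1) / ((p : ℝ) - 1)) hz3 hsub hg
  have hZ : 0 ≤ WX X / (primorial y₀).totient * QF (X ^ δ) Y l :=
    mul_nonneg (div_nonneg (WX_nn X) (Nat.cast_nonneg _)) (QF_nonneg hDG K _ _ _)
  have hw : ∀ n ∈ Om X y₀, 0 ≤ (fun n => wx X (n + h i₀) * Lam (X ^ δ) Y l h n ^ 2) n :=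
    fun n _ => mul_nonneg (wx_nn X _) (sq_nonneg _)
  have hV := prod_one_sub_nonneg (Pz y₀ (X ^ δ)) (fun p => ((nu h p : ℝ) - 1) / ((p : ℝ) - 1))
    fun p hp => (hg1 p hp).2
  have hS := hBU (Om X y₀) (Pz y₀ (X ^ δ))
    (fun n => wx X (n + h i₀) * Lam (X ^ δ) Y l h n ^ 2) (dvh h)
    (lv (X ^ δ)) (fun j => b + j) (nl (X ^ δ)) (fun p => ((nu h p : ℝ) - 1) / ((p : ℝ) - 1))
    (WX X / (primorial y₀).totient * QF (X ^ δ) Y l) hw hZ hg1 hSD2.2.2.1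
  have hT := hBL (Om X y₀) (Pz y₀ (X ^ δ))
    (fun n => wx X (n + h i₀) * Lam (X ^ δ) Y l h n ^ 2) (dvh h)
    (lv (X ^ δ)) (fun j => b + j) (nl (X ^ δ)) (fun p => ((nu h p : ℝ) - 1) / ((p : ℝ) - 1))
    (WX X / (primorial y₀).totient * QF (X ^ δ) Y l) hw hZ hg1 hSD2.2.2.1
  have hE2 := err_le A hX0 hL1 hSD2.2.2.2 (Nat.cast_nonneg _) hlog hEr
  have hU := upper hZ hV hη hq hS
  have hD := lower hZ hV hη hq hT hE2
  have e1 : ∑ n ∈ Omr X y₀ (X ^ δ) h, wx X (n + h i₀) * Lam (X ^ δ) Y l h n ^ 2 =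
      Sf (Om X y₀) (fun n => wx X (n + h i₀) * Lam (X ^ δ) Y l h n ^ 2) (dvh h)
        (Pz y₀ (X ^ δ)) := by
    unfold Sf Omr
    rfl
  have e2 : WX X / (primorial y₀).totient * QF (X ^ δ) Y l *
      ∏ p ∈ Pz y₀ (X ^ δ), (1 - ((nu h p : ℝ) - 1) / ((p : ℝ) - 1)) =
      WX X / (primorial y₀).totient * V2 y₀ (X ^ δ) h * QF (X ^ δ) Y l := by
    unfold V2
    ring
  have e3 := div_log_le hX0 hL1 A
  rw [e2] at hU hD
  rw [e1]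
  exact ⟨hD, by linarith⟩

end Pool.Agent.H5.MTP
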